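import Pool.Agent.Lib.helper18.Ptak3

namespace Pool.Agent.Results.MP_a1a577_an.Worst
open Metric Polynomial

/-- operators on the `n`-dimensional complex Hilbert space -/
abbrev Op (n : ℕ) := EuclideanSpace ℂ (Fin n) →L[ℂ] EuclideanSpace ℂ (Fin n)

/-- `F = f(T)`: the Taylor series of `f` at `0`, evaluated at `T`, converges to `F`. -/
def FC {n : ℕ} (f : ℂ → ℂ) (T F : Op n) : Prop :=
  HasSum (fun k : ℕ => (iteratedDeriv k f 0 / k.factorial) • T ^ k) F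

/-- the contractions annihilated by `p` -/
def A (n : ℕ) (p : ℂ[X]) : Set (Op n) := {T | ‖T‖ ≤ 1 ∧ aeval T p = 0}

theorem result (n : ℕ) (hn : 1 ≤ n) (r : ℝ) (hr0 : 0 < r) (hr : r < 1) (f : ℂ → ℂ)
    (hf : DifferentiableOn ℂ f (ball 0 1)) :
    ∃ a : ℂ, ‖a‖ = r ∧ ∃ T₀ ∈ A n ((X - C a) ^ n), ∃ F₀, FC f T₀ F₀ ∧
      ∀ p : ℂ[X], p.degree = n → (∀ z, p.IsRoot z → ‖z‖ ≤ r) →
        ∀ T ∈ A n p, ∃ F, FC f T F ∧ ‖F‖ ≤ ‖F₀‖ := by
  obtain ⟨m, rfl⟩ : ∃ m, n = m + 1 := ⟨n - 1, by omega⟩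
  obtain ⟨c, hc, F₀, h1, h2⟩ := H18Ptak.main hr0 hr m (fun k => iteratedDeriv k f 0 / k.factorial) (by
    intro s hs0 hs
    have := (Complex.hasSum_taylorSeries_on_ball hf (z := s) (by simp [abs_of_pos hs0, hs])).summable
    rw [← summable_norm_iff] at this
    refine this.congr fun k => ?_
    simp [abs_of_pos hs0]; ring)
  exact ⟨c, hc, _, ⟨H18Ptak.Tm_le m (hc.trans_lt hr), H18Ptak.Tm_aeval m c⟩, F₀, h1,
    fun p hp hp2 T hT => h2 p hp hp2 T hT.1 hT.2⟩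

end Pool.Agent.Results.MP_a1a577_an.Worst
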